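import Pool.Agent.Helper74.XP.Final

/-!
# Extended Petersen graphs of prime order are Class 1

Let `n = 4k + 1` with `k ≥ 2` and let `S ⊆ {1, …, 2k}` with `|S| = k`. The extended Petersen graph
`XP(2n, S)` has the vertices `(x, 0)` and `(x, 1)`, `x ∈ ℤ/n`; `(x, 0)` and `(y, 0)` are adjacent if the
distance of `x` and `y` is in `S`, `(x, 1)` and `(y, 1)` are adjacent if `x ≠ y` and the distance is not in
`S`, and `(x, 0)`, `(x, 1)` are adjacent. Horák and Rosa conjectured that its edges can be properly
coloured with `2k + 1` colours. We prove this for **all** sets `S` if `n` is a prime.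

Sketch. One colour contains the edges `(x, 0)(x, 1)` for `x` outside of a set `Y` of `2k` elements, and for each
`z ∈ Y` the edge `(z, 0)(z, 1)` has a colour of its own. In both copies the last colour must then contain a
perfect matching of `Y`.

* (`exists_unit`) By an averaging argument we can multiply `S` by a unit such that there are at least `k`
  numbers `j < 2k` with exactly one of `j`, `j + 1` in `S`.
* (`good_even`, `good_odd`, `good_of_zigzag`) This gives two decreasing sequences, alternating between `S` and its
  complement, with equal alternating sums and `2k` elements altogether; from them we construct a cycle of length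
  `2k` in `ℤ/n` with the steps alternately in the complement of `S` and in `S`, in which each distance is
  used at most twice. `Y` is its set of vertices.
* (`cov_all`) The `k` edges of the cycle of the one type are removed from the `k` cycles of length `n` formed by the
  edges of a given distance. If a distance is used once we get a path with `n` vertices, which is the union of two
  matchings, each avoiding one end. A distance used twice is combined with a distance not used: two pairs of
  edges of the two cycles are exchanged (`twist`) such that each of the two new cycles contains one of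
  the two edges.
-/

set_option autoImplicit false

namespace Pool.Agent.Results.MP_45dba8_co.PrimeOrder

open Pool.Agent.Helper74.XP

/-- **Horák–Rosa for prime orders**: if `n = 4k + 1` is a prime, `k ≥ 2`, then all extended Petersen graphs
`XP(2n, S)` are Class 1. -/
theorem result : ∀ k : ℕ, 2 ≤ k → (4 * k + 1).Prime →
    ∀ S : Finset ℕ, S ⊆ Finset.Icc 1 (2 * k) → S.card = k →
    ∀ G : SimpleGraph (ZMod (4 * k + 1) × Fin 2),
      (∀ p q : ZMod (4 * k + 1) × Fin 2, G.Adj p q ↔
        ((p.2 = 0 ∧ q.2 = 0 ∧ min (p.1 - q.1).val (q.1 - p.1).val ∈ S) ∨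
         (p.2 = 1 ∧ q.2 = 1 ∧
            min (p.1 - q.1).val (q.1 - p.1).val ∈ Finset.Icc 1 (2 * k) \ S) ∨
         (p.1 = q.1 ∧ p.2 ≠ q.2))) →
      ∃ c : Sym2 (ZMod (4 * k + 1) × Fin 2) → Fin (2 * k + 1),
        ∀ e ∈ G.edgeSet, ∀ f ∈ G.edgeSet, e ≠ f →
          (∃ v, v ∈ e ∧ v ∈ f) → c e ≠ c f := by
  intro k hk hp S hS hSk G hG
  have : Fact (4 * k + 1).Prime := ⟨hp⟩
  have hcls : ∀ x y : ZMod (4 * k + 1), min (x - y).val (y - x).val = cls (y - x) := by
    intro x y
    rw [cls, ZMod.valMinAbs_natAbs_eq_min, min_comm, ← neg_sub y x, ZMod.neg_val]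
    by_cases h : y - x = 0
    · rw [if_pos h, h]; simp
    · rw [if_neg h]
  refine (good_all (p := 4 * k + 1) rfl hk hS hSk).colour G fun x y hxy => ?_
  have hne : cls (y.1 - x.1) ∈ Finset.Icc 1 (2 * k) → x.1 ≠ y.1 := by
    intro h h'
    rw [h', sub_self, cls_eq_zero.mpr rfl, Finset.mem_Icc] at h
    omega
  rcases (hG x y).mp hxy with ⟨h1, h2, h3⟩ | ⟨h1, h2, h3⟩ | h
  · rw [hcls] at h3
    exact Or.inl ⟨h1, h2, hne (hS h3), h3⟩
  · rw [hcls, Finset.mem_sdiff] at h3
    exact Or.inr (Or.inl ⟨h1, h2, hne h3.1, h3.2⟩)
  · exact Or.inr (Or.inr h)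

end Pool.Agent.Results.MP_45dba8_co.PrimeOrder
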